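import Pool.Agent.Helper50.Tm.Goals

/-!
Packet TM-NBH: neighbourhoods in which the special fibre is connected to the point.
-/

set_option autoImplicit false

open CategoryTheory AlgebraicGeometry Limits TopologicalSpace Topology

namespace Pool.Agent.Helper3.Tm

open Pool.Agent.Helper40.Nm (specOver homGroup specialFibre)

/-- In a noetherian subspace `F`, a point has a neighbourhood contained in a preconnected union. -/
theorem nbh_aux {X : Type*} [TopologicalSpace X] (F : Set X) [NoetherianSpace F] (x : X)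
    (hx : x ∈ F) : ∃ O : Set X, IsOpen O ∧ x ∈ O ∧
      ∀ y ∈ O ∩ F, ∃ C : Set X, C ⊆ F ∧ IsPreconnected C ∧ x ∈ C ∧ y ∈ C := by
  have hfin : (irreducibleComponents F).Finite := NoetherianSpace.finite_irreducibleComponents
  set x' : F := ⟨x, hx⟩
  set B : Set (Set F) := {Z ∈ irreducibleComponents F | x' ∉ Z} with hB
  have hBfin : B.Finite := hfin.subset (Set.sep_subset _ _)
  have hclosed : IsClosed (⋃₀ B) := by
    rw [Set.sUnion_eq_biUnion]
    exact hBfin.isClosed_biUnion fun W hW => isClosed_of_mem_irreducibleComponents W hW.1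
  obtain ⟨O, hO, hOB⟩ := isOpen_induced_iff.mp hclosed.isOpen_compl
  refine ⟨O, hO, ?_, ?_⟩
  · have : x' ∈ (⋃₀ B)ᶜ := by
      rintro ⟨Z, hZ, hxZ⟩
      exact hZ.2 hxZ
    rw [← hOB] at this
    exact this
  · rintro y ⟨hyO, hyF⟩
    set y' : F := ⟨y, hyF⟩
    have hy : y' ∈ (⋃₀ B)ᶜ := by
      rw [← hOB]
      exact hyO
    have hxy : x' ∈ irreducibleComponent y' := by
      by_contra hcon
      exact hy ⟨irreducibleComponent y', ⟨irreducibleComponent_mem_irreducibleComponents y', hcon⟩,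
        mem_irreducibleComponent⟩
    refine ⟨Subtype.val '' irreducibleComponent y', ?_, ?_, ⟨x', hxy, rfl⟩,
      ⟨y', mem_irreducibleComponent, rfl⟩⟩
    · rintro _ ⟨z, -, rfl⟩
      exact z.2
    · exact (isIrreducible_irreducibleComponent.isPreirreducible.isPreconnected).image _
        continuous_subtype_val.continuousOn

theorem gNBH : Pool.Agent.Helper50.Tm.NBH := by
  intro R _ _ _ G hG U x hxU hxs
  have : IsLocallyNoetherian G.left := LocallyOfFiniteType.isLocallyNoetherian G.hom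
  obtain ⟨_, ⟨U', hU', rfl⟩, hxU', hU'U⟩ :=
    G.left.isBasis_affineOpens.exists_subset_of_mem_open hxU U.2
  have hN : NoetherianSpace (U' : Set G.left) := by
    have := IsLocallyNoetherian.component_noetherian (X := G.left) ⟨U', hU'⟩
    exact noetherianSpace_of_isAffineOpen U' hU'
  have hF : NoetherianSpace ((U' : Set G.left) ∩ specialFibre G : Set G.left) :=
    NoetherianSpace.inter_of_left _ _
  obtain ⟨O, hO, hxO, hO2⟩ := nbh_aux ((U' : Set G.left) ∩ specialFibre G) x ⟨hxU', hxs⟩
  refine ⟨⟨O, hO⟩ ⊓ U', ⟨hxO, hxU'⟩, inf_le_right.trans hU'U, ?_⟩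
  rintro y ⟨⟨hyO, hyU'⟩, hys⟩
  obtain ⟨C, hCF, hC, hxC, hyC⟩ := hO2 y ⟨hyO, hyU', hys⟩
  refine hC.subset_connectedComponentIn hxC ?_ hyC
  exact hCF.trans (Set.inter_subset_inter_left _ hU'U)

end Pool.Agent.Helper3.Tm
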